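import Mathlib
import Pool.Agent.V1176.ThetaC

set_option autoImplicit false

open Polynomial Pool.Agent.V1176.Th

namespace Pool.Agent.Results.MP_27c522_an.OddCase

/-- For every odd `n ≥ 3` the polynomial `p_n` has exactly two real zeros `x₀, -x₀`, and both are
simple. -/
theorem result : ∀ n : ℕ, Odd n → 3 ≤ n → ∃ x₀ : ℝ, 0 < x₀ ∧
    {x : ℝ | (p n).eval x = 0} = {x₀, -x₀} ∧ {x : ℝ | (p n).eval x = 0}.ncard = 2 ∧
    (p n).roots = {x₀, -x₀} := by
  intro n hn hn3
  obtain ⟨x₀, h0, h⟩ := odd_two_zeros hn hn3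
  have hp0 : p n ≠ 0 := by
    intro h0'
    rw [h0'] at h
    simp at h
  have hset : {x : ℝ | (p n).eval x = 0} = {x₀, -x₀} := by
    ext x
    have h1 : (p n).eval x = 0 ↔ x ∈ (p n).roots := by rw [mem_roots hp0, IsRoot.def]
    rw [Set.mem_ofPred_eq, h1, h]
    simp
  refine ⟨x₀, h0, hset, ?_, h⟩
  rw [hset, Set.ncard_pair]
  intro h'
  linarith

end Pool.Agent.Results.MP_27c522_an.OddCase
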